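import Pool.Agent.Lib.MP_8fffab_lc_LP2.Asym
import Pool.Agent.Lib.MP_8fffab_lc_LP2.Upper2

/-!
# MP_8fffab_lc: the Set Cover Conjecture for linear programming formulations

Linear programming formulations of Set Cover (the polyhedron and the points of the possible
covers do not depend on the input family, which enters only through the objective function) for
families of `h`-subsets of a set with `n = k * h` elements.

First part: for each `k ≥ 3` a formulation with gap `ε` has at least
`c * ε ^ t * 2 ^ n / (n + 1) - 1` inequalities.  Second part: for all `b < 2` and `C`, all large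
`k` and all `ε > 0` it has more than `b ^ n * (n * n.choose h) ^ C` inequalities if `h` is large.
Third part: `2 ^ n * n.choose h` inequalities suffice, with gap `1 / k` (the dynamic program over
all subsets), so that the base `2` is exact.
The definitions are in `Pool/Agent/Lib/MP_8fffab_lc_LP2/Defs.lean`.
-/

set_option autoImplicit false

namespace Pool.Agent.Results.MP_8fffab_lc.LPFormulations

open SetCoverLPF

theorem result :
    (∀ k : ℕ, 3 ≤ k → ∃ c : ℝ, 0 < c ∧ ∃ t : ℕ, ∀ h : ℕ, 1 ≤ h → ∀ ε : ℝ, 0 < ε → ∀ r : ℕ,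
      Nonempty (LPFormulation k h ε r) →
        c * ε ^ t * 2 ^ (k * h) / (k * h + 1 : ℕ) ≤ r + 1) ∧
    (∀ b : ℝ, 0 ≤ b → b < 2 → ∀ C : ℕ, ∃ k₀ : ℕ, ∀ k ≥ k₀, ∀ ε : ℝ, 0 < ε →
      ∃ h₀ : ℕ, ∀ h ≥ h₀, ∀ r : ℕ, Nonempty (LPFormulation k h ε r) →
        b ^ (k * h) * ((k * h : ℕ) * ((k * h).choose h : ℝ)) ^ C < r) ∧
    ∀ k h : ℕ, 3 ≤ k → 1 ≤ h →
      Nonempty (LPFormulation k h (1 / k) (2 ^ (k * h) * (k * h).choose h)) :=
  ⟨lower, main_b, upper⟩

end Pool.Agent.Results.MP_8fffab_lc.LPFormulations
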